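import Pool.Agent.P.MP_ebce6b_al.Final

open Pool.Agent.P.MP_ebce6b_al

/-- Over a ring of operators containing the rationals and for `n ≥ 3`, every product of
`n ^ 2 - 2` elements of `A` lies in the span of the `n`-th powers of elements of `A`.
Products and powers are taken in the unitization of `A`. -/
theorem Pool.Agent.P.MP_ebce6b_al.squareMinusTwo (Φ A : Type*) [CommRing Φ]
    [Algebra ℚ Φ] [NonUnitalRing A] [Module Φ A] [IsScalarTower Φ A A] [SMulCommClass Φ A A]
    (n : ℕ) (hn : 3 ≤ n) (x : Fin (n ^ 2 - 2) → A) :
    (List.ofFn fun i => (x i : Unitization Φ A)).prod ∈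
      Submodule.span Φ (Set.range fun a : A => (a : Unitization Φ A) ^ n) :=
  transfer Φ A (by omega) _ fun S f hS hf => core_two hn S f hf _ fun k => hS (x k)
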